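import Pool.Agent.U374.St.ArrI
set_option autoImplicit false

/-!
The conjecture of Beilinson and Bloch on `K_2` of curves: on the curves
`λ z^b ∏_i (x + y + 1/(x y) + a_i)^(m_i + 1) ∏_j (1/x + 1/y + x y + b_j)^(n_j + 1) = 1` with `k`
different integers `a_i` and `l` different integers `b_j` (over `ℚ` and all number fields) there are
`(k - 1)(l - 1)` explicit classes in `K_2` which are integral for all integers `λ ≠ 0`, and those with
`a_i² b_j² + 4 a_i³ + 4 b_j³ + 18 a_i b_j ≠ 27` have linearly independent regulators for all but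
finitely many `λ`.
-/

namespace Pool.Agent.Results.MP_743d1e_nt.CubicPencils

open Pool.Agent.TH826.MK

open Pool.Agent.U374.St

/-- Let `K` be a number field (for instance `ℚ`), and let `c_e`, `0 ≤ e < r`, be algebraic integers
of `K`. Let `P_e = x + y + 1/(x y) + c_e` for the `e` with `s e = false`, and
`P_e = 1/x + 1/y + x y + c_e` for the `e` with `s e = true`, where `x = z_0`, `y = z_1`; the `c_e` of
each of these two groups are different from each other. Let `b ∈ ℤ²`, `m_e ≥ 0`, and let `X` be the
curve `λ x^(b_0) y^(b_1) ∏_e P_e^(m_e + 1) = 1`, `x y ≠ 0`. In its coordinate ring the `P_e`, `x`,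
`y` are units. Let `i0` be an index in the first group and `j0` one in the second.

(0) For `i ≠ i0` in the first group and `j ≠ j0` in the second (`GPairs`) the class of `(i, j)` is
`{P_i, P_j} - {P_i, P_(j0)} - {P_(i0), P_j} + {P_(i0), P_(j0)}`, that is
`{P_i / P_(i0), P_j / P_(j0)}`, in `K_2` of the coordinate ring (with rational coefficients).

(1) For all algebraic integers `λ ≠ 0` of `K` the images of these classes in the Milnor K-theory of
all fields `L` with a homomorphism from the coordinate ring are unramified.

Let `S` be a set of such pairs `(i, j)`, such that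
`c_i² c_j² + 4 c_i³ + 4 c_j³ + 18 c_i c_j - 27 ≠ 0` (`cubDisc`) for `(i, j)` in `S` (this is the
discriminant of `T³ + c_i T² - c_j T - 1`). The following (2), (3), (4) are the parts of `Indep`.

(2) For every complex embedding `σ` of `K` there is a `C` such that for all `λ` in `K` with
`|σ λ| ≥ C` there are loops `Γ_t`, `t` in `S`, in `X(ℂ)` (over `σ`), such that the determinant of
the regulators of the classes of the `t` in `S` on these loops is not zero (`HasDet`).

(3) For all but finitely many algebraic integers `λ` of `K` there are such loops for some `σ`.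

(4) If there are such loops, the classes of the `t` in `S` are linearly independent. -/
theorem result.{u, v} (K : Type u) [Field K] [NumberField K] (r : ℕ) (s : Fin r → Bool)
    (c : Fin r → K) (hc : ∀ e, IsIntegral ℤ (c e))
    (hinj : ∀ e e', s e = s e' → c e = c e' → e = e') (m : Fin r → ℕ) (b : Fin 2 → ℤ)
    (i0 j0 : Fin r) (h1 : s i0 = false) (h2 : s j0 = true) :
    (∀ (t : GPairs s i0 j0) (lam : K), (cubArr s c m b).cls lam (gridc i0 j0 t.1.1 t.1.2) =
      (cubArr s c m b).gsym lam i0 j0 t.1.1 t.1.2) ∧
    (∀ (t : GPairs s i0 j0) (lam : K), lam ≠ 0 → IsIntegral ℤ lam →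
      Arr.Unram.{u, v} (cubArr s c m b) lam (gridc i0 j0 t.1.1 t.1.2)) ∧
    ∀ S : Finset (GPairs s i0 j0), (∀ t ∈ S, cubDisc (c t.1.1) (c t.1.2) ≠ 0) →
      (cubArr s c m b).Indep fun t : S => gridc i0 j0 t.1.1.1 t.1.1.2 :=
  ⟨fun t lam => cls_gridc lam i0 j0 t.1.1 t.1.2, fun t _ h0 hint _ _ f =>
    cls_unramified (cub_admissible hc) (cub_grid.adm (cub_admissible hc) h1 h2 t.2.1.1 t.2.2.1
      t.2.1.2 t.2.2.2) h0 hint f, fun S hS => cub_indep hinj h1 h2 S hS⟩

end Pool.Agent.Results.MP_743d1e_nt.CubicPencils
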