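import Pool.Agent.U374.St.ArrM
set_option autoImplicit false

/-!
The conjecture of Beilinson and Bloch on `K_2` of curves: the curves `λ z^b ∏_e P_e(z)^(m_e + 1) = 1`
in the torus with the coordinates `z_0, z_1`, where the polynomials of the proper faces of the Newton
polygons of the `P_e` are monomials or binomials with roots of unity as coefficients. Combinations of
the symbols `{P_e, P_e'}`, `{P_e, z_i}`, `{z_0, z_1}` which satisfy explicit linear conditions are
integral for all algebraic integers `λ ≠ 0`, and as many of them as their coefficients at the nodes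
`P_i = P_j = 0` allow have linearly independent regulators for all but finitely many `λ`.
-/

namespace Pool.Agent.Results.MP_743d1e_nt.CurveArrangements

open Pool.Agent.U374.St

/-- Let `K` be a number field, and let `P_e`, `1 ≤ e ≤ r`, be Laurent polynomials in `z_0, z_1` with
coefficients in the ring of integers of `K`, such that the polynomials of all proper faces of their
Newton polygons are monomials `ζ z^n` or binomials `ζ z^n + ζ' z^n'` with roots of unity `ζ`, `ζ'`
(`Admissible`); there is no condition on the coefficients of the monomials in the interior of the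
polygons. Let `b ∈ ℤ²` and `m_e ≥ 0`, and let `X` be the curve `λ z^b ∏_e P_e(z)^(m_e + 1) = 1` in
the torus `z_0 z_1 ≠ 0`, with the coordinate ring `A.Ring λ`, in which the `P_e` and the `z_l` are
units. For integers `β_(i, j)`, where `i` and `j` run through the `P_e` and `z_0`, `z_1`, let `cls`
be the class `∑ β_(i, j) {P_i, P_j}` in `K_2` (with rational coefficients) of the coordinate ring.
The linear conditions `Adm β` are explained at their definition.

(1) If `Adm β`, then for all algebraic integers `λ ≠ 0` of `K` the images of the class in the Milnor
K-theory of all fields `L` with a homomorphism `A.Ring λ → L` are unramified.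

(2) Let `σ` be a complex embedding of `K`, and let `β_t` be finitely many coefficient systems and
`(i_t, j_t)` pairs, `i_t ≠ j_t`, such that the curves `P_(i_t) = 0` and `P_(j_t) = 0` cross at a
point of the torus where the other `P_e` are not zero, and such that the determinant of
`β_t'(i_t, j_t) - β_t'(j_t, i_t)` is not zero (`Nodes σ β`). Then there is a `C` such that for all
`λ` in `K` with `|σ λ| ≥ C` there are loops `Γ_t` in `X(ℂ)` (over `σ`), such that the determinant of
the regulators of the classes of the `β_t` on the loops is not zero (`HasDet`).

(3) If this holds for all complex embeddings `σ` of `K`, then for all but finitely many algebraic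
integers `λ` of `K` there are a `σ` and loops over `σ` with this property.

(4) If there are such loops, the classes are linearly independent. -/
theorem result.{u, v} (K : Type u) [Field K] [NumberField K] (r : ℕ) (A : Arr K r)
    (hA : A.Admissible) :
    (∀ β : Fin r ⊕ Fin 2 → Fin r ⊕ Fin 2 → ℤ, A.Adm β → ∀ lam : K, lam ≠ 0 →
      IsIntegral ℤ lam → Arr.Unram.{u, v} A lam β) ∧
    (∀ (ι : Type) [Fintype ι] [DecidableEq ι] (β : ι → Fin r ⊕ Fin 2 → Fin r ⊕ Fin 2 → ℤ),
      (∀ σ : K →+* ℂ, A.Nodes σ β → ∃ C : ℝ, ∀ lam : K, C ≤ ‖σ lam‖ → A.HasDet σ lam β) ∧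
      ((∀ σ : K →+* ℂ, A.Nodes σ β) →
        {lam : K | IsIntegral ℤ lam ∧ ¬ ∃ σ : K →+* ℂ, A.HasDet σ lam β}.Finite) ∧
      ∀ (σ : K →+* ℂ) (lam : K), A.HasDet σ lam β →
        LinearIndependent ℚ fun t => A.cls lam (β t)) :=
  ⟨fun _ hβ _ h0 hint _ _ f => cls_unramified hA hβ h0 hint f, fun _ _ _ _ =>
    ⟨fun _ h => exists_hasDet h, finite_exceptionsA, fun _ _ h => h.linearIndependent⟩⟩

end Pool.Agent.Results.MP_743d1e_nt.CurveArrangements
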