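import Mathlib

/-!
# The Beilinson-Bloch conjecture for `K_2` of modular curves and elliptic curves is a statement about ranks

For a smooth projective geometrically connected curve `X` of genus `g` over `ℚ` let `K = K_2(X_ℤ) ⊗ ℚ`,
`V = H^2_D(X_{/ℝ}, ℝ(2))`, a real vector space of dimension `g`, `r : K ⟶ V` the regulator, `V₀ ⊆ V` the natural
`ℚ`-structure and `c` the number `c_g` of the conjecture (the leading coefficient of `L(H^1(X), s)` at `s = 0`).
`HasVolume V₀ W c` says that `W ⊆ V` is a `ℚ`-structure with volume in `ℚ^* c` with respect to `V₀`.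

If the Jacobian of `X` is a quotient of a Jacobian `J_1(N)` (all elliptic curves, all modular curves), Beilinson's theorem
gives a subspace `P ⊆ K` for which `r(P)` is a `ℚ`-structure with the volume `c`. The result: for such a curve all parts of
the conjecture, up to torsion (`r(K)` is a `ℚ`-structure with volume `c`, and the kernel of `r` on `K` is zero), are
true if and only if `K_2(X_ℤ) ⊗ ℚ` has dimension `g`. Parts (i), (ii) are true if and only if `r(K)` has dimension `g`.
-/

set_option autoImplicit false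

open Module

namespace Pool.Agent.Results.MP_743d1e_nt.RankOfKTwo

/-- `W` is a `ℚ`-structure of `V`, and its volume with respect to the `ℚ`-structure `V₀` is in `ℚ^* c`. -/
def HasVolume {V : Type} [AddCommGroup V] [Module ℝ V] [Module ℚ V] (g : ℕ) (V₀ W : Submodule ℚ V) (c : ℝ) : Prop :=
  ∃ b₀ b : Basis (Fin g) ℝ V, V₀ = Submodule.span ℚ (Set.range b₀) ∧
    W = Submodule.span ℚ (Set.range b) ∧ ∃ q : ℚ, q ≠ 0 ∧ b₀.det b = q * c

theorem rank_of_hasVolume {V : Type} [AddCommGroup V] [Module ℝ V] [Module ℚ V]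
    [IsScalarTower ℚ ℝ V] {g : ℕ} {V₀ W : Submodule ℚ V}
    {c : ℝ} (h : HasVolume g V₀ W c) : Module.rank ℚ W = g := by
  obtain ⟨b₀, b, _, rfl, _⟩ := h
  have h1 : LinearIndependent ℚ b := b.linearIndependent.restrict_scalars (by
    intro x y hxy
    have : ((x : ℚ) : ℝ) = ((y : ℚ) : ℝ) := by simpa [Rat.smul_def] using hxy
    exact_mod_cast this)
  rw [rank_span h1, Cardinal.mk_range_eq _ h1.injective]
  simp

theorem result {K V : Type} [AddCommGroup K] [Module ℚ K] [AddCommGroup V] [Module ℝ V]
    [Module ℚ V] [IsScalarTower ℚ ℝ V] (g : ℕ)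
    (r : K →ₗ[ℚ] V) (V₀ : Submodule ℚ V) (c : ℝ)
    -- Beilinson's theorem
    (P : Submodule ℚ K) (hP : HasVolume g V₀ (P.map r) c) :
    -- all parts, up to torsion
    ((HasVolume g V₀ (LinearMap.range r) c ∧ LinearMap.ker r = ⊥) ↔ Module.rank ℚ K = g) ∧
    -- parts (i) and (ii)
    (HasVolume g V₀ (LinearMap.range r) c ↔ Module.rank ℚ (LinearMap.range r) = g) := by
  have hr := rank_of_hasVolume hP
  have h2 : HasVolume g V₀ (LinearMap.range r) c ↔ Module.rank ℚ (LinearMap.range r) = g := by
    refine ⟨rank_of_hasVolume, fun h => ?_⟩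
    have hfin : Module.Finite ℚ (LinearMap.range r) :=
      Module.rank_lt_aleph0_iff.1 (by rw [h]; exact Cardinal.natCast_lt_aleph0)
    have hle : P.map r ≤ LinearMap.range r := LinearMap.map_le_range
    have heq : P.map r = LinearMap.range r := by
      refine Submodule.eq_of_le_of_finrank_eq hle ?_
      rw [finrank_eq_of_rank_eq hr, finrank_eq_of_rank_eq h]
    rwa [← heq]
  refine ⟨⟨fun h => ?_, fun h => ?_⟩, h2⟩
  · rw [← h2.1 h.1]
    exact (LinearEquiv.ofInjective r (LinearMap.ker_eq_bot.1 h.2)).rank_eq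
  · have hfin : Module.Finite ℚ K :=
      Module.rank_lt_aleph0_iff.1 (by rw [h]; exact Cardinal.natCast_lt_aleph0)
    have h3 : finrank ℚ (P.map r) = g := finrank_eq_of_rank_eq hr
    have h4 : finrank ℚ K = g := finrank_eq_of_rank_eq h
    have h5 : finrank ℚ (P.map r) ≤ finrank ℚ (LinearMap.range r) :=
      Submodule.finrank_mono LinearMap.map_le_range
    have h6 := LinearMap.finrank_range_add_finrank_ker r
    have h7 : finrank ℚ (LinearMap.ker r) = 0 := by omega
    have h8 : finrank ℚ (LinearMap.range r) = g := by omega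
    refine ⟨h2.2 ?_, Submodule.finrank_eq_zero.1 h7⟩
    rw [← finrank_eq_rank, h8]

end Pool.Agent.Results.MP_743d1e_nt.RankOfKTwo
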