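import Pool.Agent.U759.TQ.Gtwo
set_option autoImplicit false

/-!
`K_2` of curves over `ℚ`: the curves `φ_0(z) φ_1(x) = λ`, where `φ_0, φ_1` are rational functions with
torsion functions: functions `A_(l,j) / B_(l,j)`, `1 ≤ j ≤ k_l`, the zeros and poles of which are poles of
`φ_l` and the values of which at the zeros of `φ_l` are roots of unity. For all integers `λ` of large
absolute value the `k_0 k_1` symbols of two such functions are unramified, and their regulators on loops
are linearly independent: the matrix of the regulators is `- diag(c_t) log |λ| + O(1)`. The curve is smooth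
and geometrically irreducible.

Examples: the curves `(z² - z + 1)^a (x² - x + 1)^b = λ z (z - 1) x^p (x - 1)^q` have four classes, and
the curves of genus two

  `(z + 1)² (x² - x + 1)² = λ z x (x - 1)`, that is, `y² = λ x (x - 1) (λ x (x - 1) - 4 (x² - x + 1)²)`,

have two classes `{z, x}`, `{z, x - 1}` with independent regulators for all large `|λ|`: as many as the
genus.

The proof. Unramified: let `v` be a discrete valuation; since `v(φ_0) + v(φ_1) = v(λ) ≥ 0`, if one of the
entries is not a unit at `v`, then a power of the other one is a one-unit. Regulators: let `x` run through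
a small circle around a zero of `A_(1,b)`, and let `z` be the branch near a zero of `A_(0,a)`.
Irreducible: the branch near a simple pole of `φ_0` can be continued along paths which connect the zeros of
`φ_1`.
-/

namespace Pool.Agent.Results.MP_743d1e_nt.TorsionCurves

open Pool.Agent.U759.TQ Pool.Agent.U759.TQ.Crv

/-- (1) For `l = 0, 1` let `φ_l = N_l / M_l` be a rational function over `ℚ` with the functions
`A_(l,j) / B_(l,j)`, `1 ≤ j ≤ k_l`, `k_l ≥ 1`, with the conditions `Good`, that is `Tors`: all polynomials
have integral coefficients, `M_l ≠ 0`, the others are monic, the zeros of the `A_(l,j)` and `B_(l,j)` are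
zeros of `M_l`, `N_l` and `B_(l,j)` generate the unit ideal over the integers, `N_l` divides a power of
`A_(l,j)^m - B_(l,j)^m` for some `m ≥ 1`, and `M_l` is monic with `deg M_l < deg N_l`, or
`deg A_(l,j) = deg B_(l,j)` for all `j`; and `Poles`: for fixed `l` the `A_(l,j)` are not constant, pairwise
coprime and coprime to the `B_(l,i)`, and the zeros of the `A_(0,j)` are simple zeros of `M_0`.

Then (`Concl`) there are constants `C`, `B` and `c_t ≥ 1`, `t = (i, j)`, such that for all integers `λ` with
`|λ| ≥ C` the following holds for the curve `N_0(z) N_1(x) = λ M_0(z) M_1(x)` over `ℚ` and its open part, on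
which the `M_l`, `A_(l,j)`, `B_(l,j)` do not vanish: the open part is not empty; if `N_l, M_l` are coprime and
`deg M_1 ≤ deg N_1`, then the coordinate ring of the curve is a domain and its equation is irreducible over
`ℂ`; the curve is smooth at the complex points with `M_0(z) M_1(x) ≠ 0`; the `k_0 k_1` symbols
`{A_(0,i)/B_(0,i) (z), A_(1,j)/B_(1,j) (x)}` have unramified images in `K_2 (L) ⊗ ℚ` for all fields `L`
with a homomorphism from the coordinate ring of the open part (for example, the function field); and there
are `k_0 k_1` loops `Γ_t` in the open part such that the regulators of the symbols `s` on them differ from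
`- δ_(s,t) c_t log |λ|` by at most `B`, and their determinant does not vanish.

(2) The conditions, and those for irreducibility, are satisfied by the functions
`φ_l = (z² - z + 1)^(a_l) / (z^(p_l) (z - 1)^(q_l))`, `l = 0, 1`, with the functions `z` and `z - 1`, if
`p_l, q_l ≥ 1`, `p_l + q_l < 2 a_l` and `p_0 = q_0 = 1` (four symbols); and

(3) by `φ_0 = (z + 1)² / z`, `φ_1 = (x² - x + 1)^a / (x^p (x - 1)^q)` with the functions `z` and
`x`, `x - 1`, if `p, q ≥ 1` and `p + q < 2 a` (two symbols).

(4) For `a = 2`, `p = q = 1` and `λ ≠ 0, 16, -9` the curve of (3) is birational to the hyperelliptic curve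
`y² = λ x (x - 1) (λ x (x - 1) - 4 (x² - x + 1)²)` with a separable polynomial of degree `6`, so that the
number of the symbols is the genus. -/
theorem result.{v} :
    (∀ (k : Fin 2 → ℕ) (D : Dat ℚ 1 k), Good D → Concl.{v} D) ∧
    (∀ a p q : Fin 2 → ℕ, (∀ l, p l ≠ 0) → (∀ l, q l ≠ 0) → (∀ l, p l + q l < 2 * a l) →
      p 0 = 1 → q 0 = 1 → Nice (hex a p q)) ∧
    (∀ a p q : ℕ, p ≠ 0 → q ≠ 0 → p + q < 2 * a → Nice (fam a p q)) ∧
    ∀ lam : ℤ, lam ≠ 0 → lam ≠ 16 → lam ≠ -9 → GenusTwo lam :=
  ⟨fun _ _ H => concl H, fun _ _ _ hp hq h hp0 hq0 => hex_good hp hq h hp0 hq0,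
    fun _ _ _ hp hq h => fam_good hp hq h, fun _ h0 h1 h2 => genusTwo h0 h1 h2⟩

end Pool.Agent.Results.MP_743d1e_nt.TorsionCurves
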